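import Pool.Agent.Helper87.TC.Lib
import Pool.Agent.Helper80.VM.HIRR

/-!
The family of curves in the resolved quotient is irreducible (`MP_39dd1a_ag`).
-/

set_option autoImplicit false

namespace Pool.Agent.Helper87.TC

open MvPolynomial Pool.Agent.Helper48.VMRT Pool.Agent.Helper87.VM

/-- The index type of the parameters. -/
abbrev Hirr2K (D : VD) : Type := Fin D.w ⊕ (Fin 4 ⊕ Fin D.w)

/-- The parameters belonging to the component `i`. -/
def hirr2P (D : VD) (i : D.ι) : Set (Hirr2K D → ℂ) :=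
  {x | (fun j => x (Sum.inr (Sum.inr j))) ∈ D.Zi i}

theorem hirr2_primeP (h1 : VM.ST_PROD) (D : VD) (hD : D.Good) (i : D.ι) :
    (vanishingIdeal ℂ (hirr2P D i)).IsPrime := by
  have e4 := hD.Zirr i
  have e3 := h1 (Fin 4) (Fin D.w) Set.univ (D.Zi i) (hirr_univ _) e4
  have e2 := h1 (Fin D.w) (Fin 4 ⊕ Fin D.w) Set.univ _ (hirr_univ _) e3
  have e0 : hirr2P D i = {z : Fin D.w ⊕ (Fin 4 ⊕ Fin D.w) → ℂ |
      (fun i => z (Sum.inl i)) ∈ Set.univ ∧ (fun j => z (Sum.inr j)) ∈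
        {z : Fin 4 ⊕ Fin D.w → ℂ |
            (fun i => z (Sum.inl i)) ∈ Set.univ ∧ (fun j => z (Sum.inr j)) ∈ D.Zi i}} := by
    ext x
    constructor
    · intro h
      exact ⟨Set.mem_univ _, Set.mem_univ _, h⟩
    · intro h
      exact h.2.2
  rw [e0]
  exact e2

section

variable (D : VD) {N d : ℕ} (DX : Set (Fin (N + 1) → ℂ))
  (Ψ : Fin (N + 1) × Fin (d + 1) → MvPolynomial (Hirr2K D) ℂ)

/-- The open subset of the nondegenerate parameters. -/
def hirr2O (i : D.ι) : Set (Hirr2K D → ℂ) :=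
  {x | x ∈ hirr2P D i ∧ (fun j => x (Sum.inr (Sum.inr j))) ≠ 0 ∧
    x (Sum.inr (Sum.inl 0)) * x (Sum.inr (Sum.inl 3)) -
      x (Sum.inr (Sum.inl 1)) * x (Sum.inr (Sum.inl 2)) ≠ 0 ∧
    ∀ s t : ℂ, (s, t) ≠ (0, 0) → pt (ev Ψ x : Coef N d) s t ∉ DX}

theorem hirr2_primeO (h1 : VM.ST_PROD) (hD : D.Good) (i : D.ι)
    (hcl : ZClosed {c : Coef N d | ∃ s t : ℂ, (s, t) ≠ (0, 0) ∧ pt c s t ∈ DX})
    (u z : Fin D.w → ℂ) (hz : z ∈ D.Zi i) (hz0 : z ≠ 0)
    (hx : ∀ s t : ℂ, (s, t) ≠ (0, 0) →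
      pt (ev Ψ (Sum.elim u (Sum.elim ![1, 0, 0, 1] z)) : Coef N d) s t ∉ DX) :
    (vanishingIdeal ℂ (hirr2O D DX Ψ i)).IsPrime := by
  obtain ⟨jz, hjz⟩ := Function.ne_iff.1 hz0
  let x₀ : Hirr2K D → ℂ := Sum.elim u (Sum.elim ![1, 0, 0, 1] z)
  have hcl' := zclosed_preimage (κ := Hirr2K D) hcl Ψ
  obtain ⟨W, hW⟩ : ∃ W : Set (Hirr2K D → ℂ), W = {x : Hirr2K D → ℂ |
    ev Ψ x ∈ {c : Coef N d | ∃ s t : ℂ, (s, t) ≠ (0, 0) ∧ pt c s t ∈ DX}} := ⟨_, rfl⟩
  rw [← hW] at hcl'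
  have hWm : ∀ x, x ∉ W ↔ ∀ s t : ℂ, (s, t) ≠ (0, 0) → pt (ev Ψ x : Coef N d) s t ∉ DX := by
    intro x
    rw [hW]
    simp only [Set.mem_setOf_eq, not_exists, not_and]
  have hWp : ∀ x, x ∉ W ↔ ∃ p ∈ (vanishingIdeal ℂ W : Set (MvPolynomial (Hirr2K D) ℂ)),
      eval x p ≠ 0 := by
    intro x
    constructor
    · intro hn
      by_contra hh
      push Not at hh
      exact hn (zclosed_iff.1 hcl' x hh)
    · rintro ⟨p, hp, hp0⟩ hxW
      exact hp0 (mem_vI.1 hp x hxW)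
  let A2 : Set (MvPolynomial (Hirr2K D) ℂ) :=
    Set.range fun j => X (Sum.inr (Sum.inr j))
  let A3 : Set (MvPolynomial (Hirr2K D) ℂ) :=
    {X (Sum.inr (Sum.inl 0)) * X (Sum.inr (Sum.inl 3)) -
      X (Sum.inr (Sum.inl 1)) * X (Sum.inr (Sum.inl 2))}
  have p0 := hirr2_primeP h1 D hD i
  have m0 : x₀ ∈ hirr2P D i := hz
  have n2 : ∃ p ∈ A2, eval x₀ p ≠ 0 := ⟨_, ⟨jz, rfl⟩, by
    simp only [eval_X, x₀, Sum.elim_inr]
    exact hjz⟩
  have n3 : ∃ p ∈ A3, eval x₀ p ≠ 0 := ⟨_, rfl, by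
    simp [x₀]⟩
  have n4 : ∃ p ∈ (vanishingIdeal ℂ W : Set (MvPolynomial (Hirr2K D) ℂ)), eval x₀ p ≠ 0 :=
    (hWp x₀).1 ((hWm x₀).2 hx)
  have p2 := hirr_open p0 A2 m0 n2
  have m2 : x₀ ∈ {x | x ∈ hirr2P D i ∧ ∃ p ∈ A2, eval x p ≠ 0} := ⟨m0, n2⟩
  have p3 := hirr_open p2 A3 m2 n3
  have m3 : x₀ ∈ {x | x ∈ {x | x ∈ hirr2P D i ∧ ∃ p ∈ A2, eval x p ≠ 0} ∧
      ∃ p ∈ A3, eval x p ≠ 0} := ⟨m2, n3⟩
  have p4 := hirr_open p3 (vanishingIdeal ℂ W : Set (MvPolynomial (Hirr2K D) ℂ)) m3 n4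
  have e : hirr2O D DX Ψ i = {x | x ∈ {x | x ∈ {x | x ∈ hirr2P D i ∧ ∃ p ∈ A2, eval x p ≠ 0} ∧
      ∃ p ∈ A3, eval x p ≠ 0} ∧
      ∃ p ∈ (vanishingIdeal ℂ W : Set (MvPolynomial (Hirr2K D) ℂ)), eval x p ≠ 0} := by
    ext x
    constructor
    · rintro ⟨h, hz, hd, hs⟩
      obtain ⟨l, hl⟩ := Function.ne_iff.1 hz
      refine ⟨⟨⟨h, _, ⟨l, rfl⟩, ?_⟩, _, rfl, ?_⟩, (hWp x).1 ((hWm x).2 hs)⟩
      · rw [eval_X]; exact hl
      · simp only [map_sub, map_mul, eval_X]; exact hd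
    · rintro ⟨⟨⟨h, _, ⟨l, rfl⟩, hl⟩, _, rfl, hd⟩, hs⟩
      refine ⟨h, ?_, ?_, (hWm x).1 ((hWp x).2 hs)⟩
      · intro h0
        apply hl
        simp only [eval_X]
        exact congrFun h0 l
      · simp only [map_sub, map_mul, eval_X] at hd; exact hd
  rw [e]
  exact p4

/-- The members of the family given by parameters in the component `i`. -/
theorem hirr2_par (hD : D.Good) (K : ℕ)
    (E : Fin (N + 1) → MvPolynomial (Option (Fin D.w) × D.ν) ℂ)
    (hΨ : ∀ (u : Fin D.w → ℂ) (σ : Fin 4 → ℂ), ∀ z ∈ D.Z, ∀ s t : ℂ,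
      (s * σ 0 + t * σ 1) ^ K •
        pt (ev Ψ (Sum.elim u (Sum.elim σ z)) : Coef N d) s t =
      ev E (D.gr (s • ov (σ 0) (σ 0 • u + σ 2 • z) + t • ov (σ 1) (σ 1 • u + σ 3 • z))))
    (i : D.ι) (c : Coef N d) :
    c ∈ ev Ψ '' hirr2O D DX Ψ i ↔ ∃ p q, LP D p q ∧
      (fun j => q none * p (some j) - p none * q (some j)) ∈ D.Zi i ∧
      (∀ s t : ℂ, (s * p none + t * q none) ^ K • pt c s t = ev E (D.gr (s • p + t • q))) ∧
      ∀ s t : ℂ, (s, t) ≠ (0, 0) → pt c s t ∉ DX := by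
  constructor
  · rintro ⟨x, ⟨hz, hz0, hd, hs⟩, rfl⟩
    obtain ⟨u, hue⟩ : ∃ u : Fin D.w → ℂ, u = fun j => x (Sum.inl j) := ⟨_, rfl⟩
    obtain ⟨σ, hσe⟩ : ∃ σ : Fin 4 → ℂ, σ = fun j => x (Sum.inr (Sum.inl j)) :=
      ⟨_, rfl⟩
    obtain ⟨z, hze⟩ : ∃ z : Fin D.w → ℂ, z = fun j => x (Sum.inr (Sum.inr j)) :=
      ⟨_, rfl⟩
    have hx : x = Sum.elim u (Sum.elim σ z) := by
      rw [hue, hσe, hze]
      funext j
      rcases j with j | j | j <;> rfl
    change (fun j => x (Sum.inr (Sum.inr j))) ∈ D.Zi i at hz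
    rw [← hze] at hz hz0
    have hd' : σ 0 * σ 3 - σ 1 * σ 2 ≠ 0 := by rw [hσe]; exact hd
    have hzZ : z ∈ D.Z := Set.mem_iUnion.2 ⟨i, hz⟩
    have hm : (fun j => (ov (σ 1) (σ 1 • u + σ 3 • z)) none *
        (ov (σ 0) (σ 0 • u + σ 2 • z)) (some j) -
        (ov (σ 0) (σ 0 • u + σ 2 • z)) none * (ov (σ 1) (σ 1 • u + σ 3 • z)) (some j)) =
        (σ 1 * σ 2 - σ 0 * σ 3) • z := by
      funext j
      simp only [ov_none, ov_some, Pi.add_apply, Pi.smul_apply, smul_eq_mul]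
      ring
    refine ⟨ov (σ 0) (σ 0 • u + σ 2 • z), ov (σ 1) (σ 1 • u + σ 3 • z), ?_, ?_, ?_, hs⟩
    · refine ⟨hirr_ind u z σ hz0 hd', ?_, ?_⟩
      · by_contra hn
        rw [not_or, not_not, not_not] at hn
        have a1 : σ 0 = 0 := hn.1
        have a2 : σ 1 = 0 := hn.2
        apply hd'
        rw [a1, a2]; ring
      · rw [hm]
        exact Set.mem_iUnion.2 ⟨i, hD.Zcone i _ z hz⟩
    · rw [hm]
      exact hD.Zcone i _ z hz
    · intro s t
      rw [hx]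
      exact hΨ u σ z hzZ s t
  · rintro ⟨p, q, hp, hz, hc, hs⟩
    obtain ⟨z, hze⟩ : ∃ z : Fin D.w → ℂ,
      z = fun j => q none * p (some j) - p none * q (some j) := ⟨_, rfl⟩
    rw [← hze] at hz
    have hzj : ∀ j, z j = q none * p (some j) - p none * q (some j) := fun j => congrFun hze j
    have hz0 : z ≠ 0 := by
      intro h0
      have h1 := (LinearIndependent.pair_iff.1 hp.ind) (q none) (-p none) (by
        funext o
        cases o with
        | none =>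
          simp only [Pi.add_apply, Pi.smul_apply, smul_eq_mul, Pi.zero_apply]; ring
        | some j =>
          have h2 := hzj j
          rw [h0, Pi.zero_apply] at h2
          simp only [Pi.add_apply, Pi.smul_apply, smul_eq_mul, Pi.zero_apply]
          linear_combination -h2)
      rcases hp.ne with h3 | h3
      · exact h3 (neg_eq_zero.1 h1.2)
      · exact h3 h1.1
    have hzZ : z ∈ D.Z := Set.mem_iUnion.2 ⟨i, hz⟩
    -- the parameters
    have hpar : ∃ (u : Fin D.w → ℂ) (σ : Fin 4 → ℂ), σ 0 * σ 3 - σ 1 * σ 2 ≠ 0 ∧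
        p = ov (σ 0) (σ 0 • u + σ 2 • z) ∧ q = ov (σ 1) (σ 1 • u + σ 3 • z) := by
      by_cases h0 : p none = 0
      · have hq0 : q none ≠ 0 := hp.ne.resolve_left fun h => h h0
        refine ⟨fun j => q (some j) / q none, ![0, q none, 1 / q none, 0], ?_, ?_, ?_⟩
        · have : (![0, q none, 1 / q none, 0] : Fin 4 → ℂ) 0 *
              (![0, q none, 1 / q none, 0] : Fin 4 → ℂ) 3 -
              (![0, q none, 1 / q none, 0] : Fin 4 → ℂ) 1 *
              (![0, q none, 1 / q none, 0] : Fin 4 → ℂ) 2 = 0 * 0 - q none * (1 / q none) := rfl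
          rw [this, mul_one_div_cancel hq0]
          norm_num
        · funext o
          cases o with
          | none => exact h0
          | some j =>
            change p (some j) = 0 * (q (some j) / q none) + 1 / q none * z j
            rw [hzj j, h0]
            field_simp
            ring
        · funext o
          cases o with
          | none => rfl
          | some j =>
            change q (some j) = q none * (q (some j) / q none) + 0 * z j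
            field_simp
            ring
      · refine ⟨fun j => p (some j) / p none, ![p none, q none, 0, -(1 / p none)], ?_, ?_, ?_⟩
        · have : (![p none, q none, 0, -(1 / p none)] : Fin 4 → ℂ) 0 *
              (![p none, q none, 0, -(1 / p none)] : Fin 4 → ℂ) 3 -
              (![p none, q none, 0, -(1 / p none)] : Fin 4 → ℂ) 1 *
              (![p none, q none, 0, -(1 / p none)] : Fin 4 → ℂ) 2 =
              p none * -(1 / p none) - q none * 0 := rfl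
          rw [this, mul_neg, mul_one_div_cancel h0]
          norm_num
        · funext o
          cases o with
          | none => rfl
          | some j =>
            change p (some j) = p none * (p (some j) / p none) + 0 * z j
            field_simp
            ring
        · funext o
          cases o with
          | none => rfl
          | some j =>
            change q (some j) = q none * (p (some j) / p none) + -(1 / p none) * z j
            rw [hzj j]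
            field_simp
            ring
    obtain ⟨u, σ, hd, hpe, hqe⟩ := hpar
    have hcc : ev Ψ (Sum.elim u (Sum.elim σ z)) = c := by
      symm
      apply hirr_unique c _ (p none) (q none) hp.ne (k := K)
      intro s t
      rw [hc s t]
      have h4 := hΨ u σ z hzZ s t
      rw [← hpe, ← hqe] at h4
      rw [← h4]
      have h5 : p none = σ 0 := by rw [hpe]; rfl
      have h6 : q none = σ 1 := by rw [hqe]; rfl
      rw [h5, h6]
    refine ⟨Sum.elim u (Sum.elim σ z), ⟨hz, hz0, hd, ?_⟩, hcc⟩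
    rw [hcc]
    exact hs

end

theorem st_HIRR2 (h1 : ST_HTR2) (_h2 : ST_MEM2) (h3 : ST_THR2) (h4 : ST_PAR0) (h5 : ST_COMPE)
    (h6 : ST_RESD) (h7 : VM.ST_PROD) : ST_HIRR2 := by
  intro D M g N E X DX ε hT hu
  have hD := hT.td.good
  obtain ⟨Ψ₀, hΨ₀⟩ := h4 D hD
  obtain ⟨Q, hQ⟩ := h5 (Option (Fin D.w) × D.ν) N (4 ^ (M + 1)) D.a E hT.res.hom
  obtain ⟨Ψ, hΨe⟩ : ∃ Ψ : Fin (N + 1) × Fin (4 ^ (M + 1) * D.a + 1) →
    MvPolynomial (Hirr2K D) ℂ, Ψ = fun i => aeval Ψ₀ (Q i) := ⟨_, rfl⟩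
  have hev : ∀ (c : ℂ) (y : Option (Fin D.w) × D.ν → ℂ),
      ev E (c • y) = c ^ 4 ^ (M + 1) • ev E y := by
    intro c y
    funext i
    exact hT.res.hom i c y
  have hΨp : ∀ x : Hirr2K D → ℂ, ∀ s t : ℂ,
      pt (ev Ψ x : Coef N (4 ^ (M + 1) * D.a)) s t = ev E (cev D.a (ev Ψ₀ x) s t) := by
    intro x s t
    rw [← hQ (ev Ψ₀ x) s t]
    have e1 : (ev Ψ x : Coef N (4 ^ (M + 1) * D.a)) = fun i => eval (ev Ψ₀ x) (Q i) := by
      funext i
      rw [hΨe]
      exact eval_aeval Ψ₀ (Q i) x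
    rw [e1]
  have hΨ : ∀ (u : Fin D.w → ℂ) (σ : Fin 4 → ℂ), ∀ z ∈ D.Z, ∀ s t : ℂ,
      (s * σ 0 + t * σ 1) ^ 4 ^ (M + 1) •
        pt (ev Ψ (Sum.elim u (Sum.elim σ z)) : Coef N (4 ^ (M + 1) * D.a)) s t =
      ev E (D.gr (s • ov (σ 0) (σ 0 • u + σ 2 • z) + t • ov (σ 1) (σ 1 • u + σ 3 • z))) := by
    intro u σ z hz s t
    rw [hΨp, ← hev, hΨ₀ u σ z hz s t]
  obtain ⟨i⟩ := hD.ine
  have hpar := hirr2_par D DX Ψ hD (4 ^ (M + 1)) E hΨ
  -- a general point
  obtain ⟨u, hu⟩ := hu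
  obtain ⟨z, hz, hz0⟩ := hD.Zne i
  have hzZ : z ∈ D.Z := Set.mem_iUnion.2 ⟨i, hz⟩
  obtain ⟨Φ, hΦ⟩ := h3 D M g N E X DX ε hT u hu 1 one_ne_zero
  obtain ⟨hΦ1, -, -, hΦ2⟩ := hΦ z hzZ
  have hx : ∀ s t : ℂ, (s, t) ≠ (0, 0) →
      pt (ev Ψ (Sum.elim u (Sum.elim ![1, 0, 0, 1] z)) :
        Coef N (4 ^ (M + 1) * D.a)) s t ∉ DX := by
    have e1 : (ev Ψ (Sum.elim u (Sum.elim ![1, 0, 0, 1] z)) : Coef N (4 ^ (M + 1) * D.a)) =
        fun i => eval z (Φ i) := by
      apply hirr_unique _ _ 1 0 (Or.inl one_ne_zero) (k := 4 ^ (M + 1))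
      intro s t
      have e2 := hΨ u ![1, 0, 0, 1] z hzZ s t
      have e3 := hΦ1 s t
      have s0 : (![1, 0, 0, 1] : Fin 4 → ℂ) 0 = 1 := rfl
      have s1 : (![1, 0, 0, 1] : Fin 4 → ℂ) 1 = 0 := rfl
      have s2 : (![1, 0, 0, 1] : Fin 4 → ℂ) 2 = 0 := rfl
      have s3 : (![1, 0, 0, 1] : Fin 4 → ℂ) 3 = 1 := rfl
      rw [s0, s1, s2, s3, one_smul, zero_smul, zero_smul, one_smul, add_zero, zero_add] at e2
      rw [e2]
      have e4 : s * 1 + t * 0 = s := by ring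
      rw [e4, e3, one_smul]
    rw [e1]
    obtain ⟨p, q, -, -, h⟩ := hΦ2 hz0
    exact h
  have hDXne : DX.Nonempty := by
    refine ⟨_, hT.res.on 0 ?_⟩
    left
    rw [map_zero]
  have hcl := (h6 N (4 ^ (M + 1) * D.a) DX hT.res.dcl hT.res.dcone hDXne).1
  have key : H2 D M N E DX = ev Ψ '' hirr2O D DX Ψ i := by
    apply Set.Subset.antisymm
    · rintro c ⟨p, q, hp, hc, hs⟩
      obtain ⟨j, hj⟩ := Set.mem_iUnion.1 hp.mem
      obtain ⟨h, hg⟩ := hD.trans j i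
      obtain ⟨lam, hl0, hl1, hl2⟩ := h1 D M g N E X DX ε hT h p q hp
      rw [hpar i c]
      refine ⟨lam • oext D.ρ h p, lam • oext D.ρ h q, hl1, ?_, hl2 c hc, hs⟩
      have h8 : (fun j => (lam • oext D.ρ h q) none * (lam • oext D.ρ h p) (some j) -
          (lam • oext D.ρ h p) none * (lam • oext D.ρ h q) (some j)) =
          lam ^ 2 • D.ρ h (fun i => q none * p (some i) - p none * q (some i)) := by
        have h9 : (fun i => q none * p (some i) - p none * q (some i)) =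
            q none • (fun i => p (some i)) - p none • (fun i => q (some i)) := rfl
        rw [h9, map_sub, map_smul, map_smul]
        funext j
        change (lam * q none) * (lam * D.ρ h (fun i => p (some i)) j) -
          (lam * p none) * (lam * D.ρ h (fun i => q (some i)) j) =
          lam ^ 2 * (q none * D.ρ h (fun i => p (some i)) j -
            p none * D.ρ h (fun i => q (some i)) j)
        ring
      rw [h8]
      apply hD.Zcone
      rw [← hg]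
      exact ⟨_, hj, rfl⟩
    · intro c hc
      rw [hpar i c] at hc
      obtain ⟨p, q, hp, -, hc, hs⟩ := hc
      exact ⟨p, q, hp, hc, hs⟩
  rw [key]
  exact prime_image Ψ (hirr2_primeO D DX Ψ h7 hD i hcl u z hz hz0 hx)

end Pool.Agent.Helper87.TC
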